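import Pool.Agent.Helper75.FU.StL

/-!
# Project FU (MP_b1e6de_al), module L3 (linear algebra with estimates)
-/

set_option autoImplicit false

namespace Pool.Agent.Helper8.FU

open Pool.Agent.Helper75.FU

private theorem bnd {ι : Type} (s : Finset ι) (φ : ι → ℚ) (h : ∀ a ∈ s, 0 < φ a) :
    ∃ ξ X : ℚ, 0 < ξ ∧ 0 < X ∧ ∀ a ∈ s, ξ ≤ φ a ∧ φ a ≤ X := by
  classical
  induction s using Finset.induction_on with
  | empty => exact ⟨1, 1, one_pos, one_pos, fun a ha => absurd ha (Finset.notMem_empty a)⟩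
  | insert a s has ih =>
    obtain ⟨ξ, X, hξ, hX, hb⟩ := ih (fun c hc => h c (Finset.mem_insert_of_mem hc))
    have ha := h a (Finset.mem_insert_self a s)
    refine ⟨min ξ (φ a), X + φ a, lt_min hξ ha, by linarith, ?_⟩
    intro c hc
    rcases Finset.mem_insert.mp hc with rfl | hc
    · exact ⟨min_le_right _ _, by linarith⟩
    · exact ⟨le_trans (min_le_left _ _) (hb c hc).1, by linarith [(hb c hc).2]⟩

private theorem off (n : ℕ) (f : Fin n → (Fin n → ℚ)) (z : Fin n → ℚ) (ε Z : ℚ)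
    (hε : 0 < ε) (hZ : ∀ j, |z j| ≤ Z) (hf : ∀ j i, i ≠ j → |f j i| < ε) (i : Fin n) :
    |(∑ j, z j * f j i) - z i * f i i| ≤ n * (ε * Z) := by
  have h1 : (∑ j, z j * f j i) - z i * f i i = ∑ j ∈ Finset.univ.erase i, z j * f j i := by
    rw [← Finset.add_sum_erase Finset.univ (fun j => z j * f j i) (Finset.mem_univ i)]
    ring
  rw [h1]
  refine le_trans (Finset.abs_sum_le_sum_abs _ _) ?_
  have h2 : ∀ j ∈ Finset.univ.erase i, |z j * f j i| ≤ ε * Z := by
    intro j hj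
    have hij : i ≠ j := (Finset.ne_of_mem_erase hj).symm
    rw [abs_mul, mul_comm]
    exact mul_le_mul (hf j i hij).le (hZ j) (abs_nonneg _) hε.le
  refine le_trans (Finset.sum_le_card_nsmul _ _ _ h2) ?_
  rw [nsmul_eq_mul]
  have hZ0 : 0 ≤ Z := le_trans (abs_nonneg _) (hZ i)
  apply mul_le_mul_of_nonneg_right _ (mul_nonneg hε.le hZ0)
  have : (Finset.univ.erase i).card ≤ n := by
    refine le_trans (Finset.card_le_univ _) ?_
    rw [Fintype.card_fin]
  exact_mod_cast this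

private theorem key (n : ℕ) (f : Fin n → (Fin n → ℚ)) (β : Fin n → ℚ) (z : Fin n → ℚ) (ε b : ℚ)
    (hε : 0 < ε) (hb : ∀ j, b ≤ β j) (hεb : ((n : ℚ) + 1) * ε ≤ b / 2)
    (hf : ∀ j i, i ≠ j → |f j i| < ε) (hf2 : ∀ j, |f j j - β j| < ε)
    (i : Fin n) (hi : ∀ j, |z j| ≤ |z i|) : |z i| * (b / 2) ≤ |∑ j, z j * f j i| := by
  have h1 := off n f z ε |z i| hε hi hf i
  have h2 : |z i| * (b - ε) ≤ |z i * f i i| := by
    rw [abs_mul]
    apply mul_le_mul_of_nonneg_left _ (abs_nonneg _)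
    have h3 := (abs_lt.mp (hf2 i)).1
    have h4 := le_abs_self (f i i)
    have h5 := hb i
    linarith
  have h6 : |z i * f i i| - |∑ j, z j * f j i| ≤ |(∑ j, z j * f j i) - z i * f i i| := by
    rw [abs_sub_comm]
    exact abs_sub_abs_le_abs_sub _ _
  have h7 : |z i| * (b / 2) ≤ |z i| * (b - ε) - n * (ε * |z i|) := by
    have e : |z i| * (b - ε) - n * (ε * |z i|) = |z i| * (b - ((n : ℚ) + 1) * ε) := by ring
    rw [e]
    apply mul_le_mul_of_nonneg_left _ (abs_nonneg _)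
    linarith
  linarith

theorem hL3 : StL3 := by
  intro n β hβ K hK
  obtain ⟨b, _, hb, _, hbβ⟩ := bnd Finset.univ β (fun a _ => hβ a)
  obtain ⟨ξ, X, hξ, hX, hK'⟩ := bnd (K ×ˢ (Finset.univ : Finset (Fin n)))
    (fun q => q.1 q.2) (fun q hq => hK q.1 (Finset.mem_product.mp hq).1 q.2)
  have hbβ' : ∀ j, b ≤ β j := fun j => (hbβ j (Finset.mem_univ j)).1
  have hn1 : (0 : ℚ) < (n : ℚ) + 1 := by positivity
  set ε : ℚ := min (b / (2 * ((n : ℚ) + 1))) (ξ * b / (4 * ((n : ℚ) + 1) * X)) with hεdef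
  have hε : 0 < ε := lt_min (by positivity) (by positivity)
  have hε1 : ((n : ℚ) + 1) * ε ≤ b / 2 := by
    have h1 : ε ≤ b / (2 * ((n : ℚ) + 1)) := min_le_left _ _
    have h2 := mul_le_mul_of_nonneg_left h1 hn1.le
    have h3 : ((n : ℚ) + 1) * (b / (2 * ((n : ℚ) + 1))) = b / 2 := by field_simp
    rwa [h3] at h2
  have hε2 : (n : ℚ) * (ε * (2 * X / b)) ≤ ξ / 2 := by
    have h1 : ε ≤ ξ * b / (4 * ((n : ℚ) + 1) * X) := min_le_right _ _
    have h2 : (n : ℚ) * (ε * (2 * X / b)) ≤ ((n : ℚ) + 1) * (ε * (2 * X / b)) := by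
      apply mul_le_mul_of_nonneg_right (by linarith)
      positivity
    have h3 : ((n : ℚ) + 1) * (ε * (2 * X / b)) ≤
        ((n : ℚ) + 1) * (ξ * b / (4 * ((n : ℚ) + 1) * X) * (2 * X / b)) := by
      gcongr
    have h4 : ((n : ℚ) + 1) * (ξ * b / (4 * ((n : ℚ) + 1) * X) * (2 * X / b)) = ξ / 2 := by
      field_simp
      ring
    linarith
  refine ⟨ε, hε, ?_⟩
  intro f hf hf2
  -- evaluate a linear combination
  have heval : ∀ (z : Fin n → ℚ) (i : Fin n), (∑ j, z j • f j) i = ∑ j, z j * f j i := by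
    intro z i
    rw [Finset.sum_apply]
    rfl
  have hlin : LinearIndependent ℚ f := by
    rw [Fintype.linearIndependent_iff]
    intro z hz
    by_cases hn : Nonempty (Fin n)
    · obtain ⟨i, _, hi⟩ := Finset.exists_max_image Finset.univ (fun j => |z j|)
        Finset.univ_nonempty
      have h1 := key n f β z ε b hε hbβ' hε1 hf hf2 i (fun j => hi j (Finset.mem_univ j))
      rw [← heval, hz] at h1
      simp only [Pi.zero_apply, abs_zero] at h1
      have h2 : |z i| ≤ 0 := by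
        by_contra hcon
        push Not at hcon
        have := mul_pos hcon (by linarith : 0 < b / 2)
        linarith
      intro j
      have h3 := hi j (Finset.mem_univ j)
      exact abs_eq_zero.mp (le_antisymm (by linarith) (abs_nonneg _))
    · intro j
      exact absurd ⟨j⟩ hn
  refine ⟨hlin, ?_⟩
  intro x hx
  have hspan : x ∈ Submodule.span ℚ (Set.range f) := by
    have h1 : Submodule.span ℚ (Set.range f) = ⊤ := by
      apply hlin.span_eq_top_of_card_eq_finrank'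
      rw [Module.finrank_fintype_fun_eq_card]
    rw [h1]
    exact Submodule.mem_top
  obtain ⟨z, hz⟩ := (Submodule.mem_span_range_iff_exists_fun ℚ).mp hspan
  refine ⟨z, ?_, hz.symm⟩
  intro i0
  obtain ⟨i, _, hi⟩ := Finset.exists_max_image Finset.univ (fun j => |z j|) ⟨i0, Finset.mem_univ i0⟩
  have h1 := key n f β z ε b hε hbβ' hε1 hf hf2 i (fun j => hi j (Finset.mem_univ j))
  have hxi := hK' (x, i) (Finset.mem_product.mpr ⟨hx, Finset.mem_univ i⟩)
  have hxi0 := hK' (x, i0) (Finset.mem_product.mpr ⟨hx, Finset.mem_univ i0⟩)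
  simp only at hxi hxi0
  rw [← heval, hz, abs_of_pos (hK x hx i)] at h1
  have h2 : |z i| ≤ 2 * X / b := by
    rw [le_div_iff₀ hb]
    linarith [hxi.2]
  have h3 := off n f z ε (2 * X / b) hε
    (fun j => le_trans (hi j (Finset.mem_univ j)) h2) hf i0
  rw [← heval, hz] at h3
  have h4 := (abs_le.mp h3).2
  have h5 : 0 < z i0 * f i0 i0 := by linarith [hxi0.1]
  have h6 : 0 < f i0 i0 := by
    have h7 := (abs_lt.mp (hf2 i0)).1
    have h8 := hbβ' i0
    have h9 : ε ≤ ((n : ℚ) + 1) * ε := by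
      have : (0 : ℚ) ≤ (n : ℚ) * ε := by positivity
      linarith
    linarith
  by_contra hcon
  push Not at hcon
  have := mul_nonpos_of_nonpos_of_nonneg hcon h6.le
  linarith

end Pool.Agent.Helper8.FU
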