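import Pool.Agent.Helper75.FU.StP

/-!
# Project FU (MP_b1e6de_al), module P4 (factorisation)
-/

set_option autoImplicit false

namespace Pool.Agent.Helper8.FU

open Polynomial Pool.Agent.Helper75.FU Pool.Agent.Helper91.GU

universe u

theorem hP4 (hP1 : StP1.{u}) (hP3 : StP3.{u}) : StP4.{u} := by
  intro C _ _ n _ _ i₀ v γ hγ hγ1 hv
  obtain ⟨y, hy, p0, padd, pneg, pmul, pmono, pconst, pall, pdiv, pcoef, pfin, hinj⟩ := hP1 C
  set 𝔪 := IsLocalRing.maximalIdeal C with h𝔪
  -- the inverse matrix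
  set γ' := γ⁻¹ with hγ'
  have hγγ' : γ * γ' = 1 := Matrix.mul_nonsing_inv γ hγ
  have hγ'γ : γ' * γ = 1 := Matrix.nonsing_inv_mul γ hγ
  have hγ'1 : ∀ i j, γ' i j - (1 : Matrix n n (RX C)) i j ∈ mRX C := by
    intro i j
    have h1 : γ' - 1 = -(γ' * (γ - 1)) := by
      rw [mul_sub, hγ'γ, mul_one]
      abel
    have h2 : γ' i j - (1 : Matrix n n (RX C)) i j = (γ' - 1) i j := rfl
    rw [h2, h1, Matrix.neg_apply, Matrix.mul_apply]
    refine neg_mem (sum_mem fun k _ => Ideal.mul_mem_left _ _ ?_)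
    exact hγ1 k j
  -- sections
  obtain ⟨h, g, hgS, hhg, hh1⟩ := hP3 C n γ γ' hγγ' hγ'1
  have ht : γ'.transpose * γ.transpose = 1 := by
    rw [← Matrix.transpose_mul, hγγ', Matrix.transpose_one]
  have ht1 : ∀ i j, γ.transpose i j - (1 : Matrix n n (RX C)) i j ∈ mRX C := by
    intro i j
    have e : (1 : Matrix n n (RX C)) i j = (1 : Matrix n n (RX C)) j i := by
      rw [← Matrix.transpose_one, Matrix.transpose_apply, Matrix.transpose_one]
    rw [Matrix.transpose_apply, e]
    exact hγ1 j i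
  obtain ⟨h₂, g₂, hgS₂, hhg₂, hh₂1⟩ := hP3 C n γ'.transpose γ.transpose ht ht1
  set k := h₂.transpose with hk
  set l := g₂.transpose with hl
  have hkl : k.map (toRX C) = γ * l := by
    have h1 := congrArg Matrix.transpose hhg₂
    rw [Matrix.transpose_mul, Matrix.transpose_transpose] at h1
    rw [hk, hl, ← h1]
    rfl
  have hhγ : h.map (toRX C) * γ = g := by
    rw [hhg, mul_assoc, hγ'γ, mul_one]
  -- sums and products in Sg 0 0
  have S0mul : ∀ x ∈ Sg C 0 0, ∀ x' ∈ Sg C 0 0, x * x' ∈ Sg C 0 0 := by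
    intro x hx x' hx'
    exact pmul 0 0 0 0 x hx x' hx'
  have S0sum : ∀ (w : n → RX C), (∀ i, w i ∈ Sg C 0 0) → ∀ s : Finset n, ∑ i ∈ s, w i ∈ Sg C 0 0 := by
    intro w hw s
    induction s using Finset.induction_on with
    | empty => rw [Finset.sum_empty]; exact p0 0 0
    | insert a s has ih => rw [Finset.sum_insert has]; exact padd 0 0 _ (hw a) _ ih
  have hlS : ∀ i j, l i j ∈ Sg C 0 0 := fun i j => hgS₂ j i
  have hgl : ∀ i j, (g * l) i j ∈ Sg C 0 0 := by
    intro i j
    rw [Matrix.mul_apply]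
    exact S0sum _ (fun t => S0mul _ (hgS i t) _ (hlS t j)) _
  have hhk : (h * k).map (toRX C) = g * l := by
    rw [Matrix.map_mul, hkl, ← mul_assoc, hhγ]
  have hconst : ∀ i j, ∃ c : C, (h * k) i j = Polynomial.C c := by
    intro i j
    apply pfin
    have e : toRX C ((h * k) i j) = ((h * k).map (toRX C)) i j := rfl
    rw [e, hhk]
    exact hgl i j
  choose c₀ hc₀ using hconst
  have hhkc : h * k = (Matrix.of c₀).map (Polynomial.C : C →+* C[X]) := by
    ext1 i j
    rw [hc₀ i j]
    rfl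
  -- c₀ is congruent to one
  have hk1 : ∀ i j, k i j - (1 : Matrix n n C[X]) i j ∈ 𝔪.map (Polynomial.C : C →+* C[X]) := by
    intro i j
    have e : (1 : Matrix n n C[X]) i j = (1 : Matrix n n C[X]) j i := by
      rw [← Matrix.transpose_one, Matrix.transpose_apply, Matrix.transpose_one]
    rw [hk, Matrix.transpose_apply, e]
    exact hh₂1 j i
  have hhk1 : ∀ i j, (h * k) i j - (1 : Matrix n n C[X]) i j ∈
      𝔪.map (Polynomial.C : C →+* C[X]) := by
    intro i j
    have e : h * k - 1 = (h - 1) * k + (k - 1) := by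
      rw [sub_mul, one_mul]
      abel
    have e2 : (h * k) i j - (1 : Matrix n n C[X]) i j = (h * k - 1) i j := rfl
    rw [e2, e, Matrix.add_apply, Matrix.mul_apply]
    refine add_mem (sum_mem fun t _ => Ideal.mul_mem_right _ _ ?_) (hk1 i j)
    exact hh1 i t
  have hc1 : ∀ i j, c₀ i j - (1 : Matrix n n C) i j ∈ 𝔪 := by
    intro i j
    have h1 := hhk1 i j
    rw [hc₀ i j, Ideal.mem_map_C_iff] at h1
    have h2 := h1 0
    have e : ((1 : Matrix n n C[X]) i j).coeff 0 = (1 : Matrix n n C) i j := by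
      by_cases hij : i = j
      · subst hij
        rw [Matrix.one_apply_eq, Matrix.one_apply_eq, Polynomial.coeff_one_zero]
      · rw [Matrix.one_apply_ne hij, Matrix.one_apply_ne hij, Polynomial.coeff_zero]
    rwa [Polynomial.coeff_sub, Polynomial.coeff_C_zero, e] at h2
  have hcdet : IsUnit (Matrix.of c₀).det := by
    rw [← IsLocalRing.residue_ne_zero_iff_isUnit, RingHom.map_det]
    have e : (IsLocalRing.residue C).mapMatrix (Matrix.of c₀) = 1 := by
      ext1 i j
      have h1 := (Ideal.Quotient.eq_zero_iff_mem).mpr (hc1 i j)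
      have h2 : IsLocalRing.residue C (c₀ i j) - IsLocalRing.residue C ((1 : Matrix n n C) i j) = 0 := by
        rw [← map_sub]
        exact h1
      have h3 : (IsLocalRing.residue C).mapMatrix (Matrix.of c₀) i j =
          IsLocalRing.residue C (c₀ i j) := rfl
      rw [h3, sub_eq_zero.mp h2]
      by_cases hij : i = j
      · subst hij
        rw [Matrix.one_apply_eq, Matrix.one_apply_eq, map_one]
      · rw [Matrix.one_apply_ne hij, Matrix.one_apply_ne hij, map_zero]
    rw [e, Matrix.det_one]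
    exact one_ne_zero
  -- h is invertible
  have hhdet : IsUnit h.det := by
    have h1 : (h * k).det = Polynomial.C ((Matrix.of c₀).det) := by
      rw [hhkc]
      have := (RingHom.map_det (Polynomial.C : C →+* C[X]) (Matrix.of c₀))
      rw [this]
      rfl
    rw [Matrix.det_mul] at h1
    apply isUnit_of_mul_isUnit_left (y := k.det)
    rw [h1]
    exact hcdet.map (Polynomial.C : C →+* C[X])
  set w := Matrix.vecMul v h⁻¹ with hw
  -- the image of w in C(X)
  have hwv : Matrix.vecMul w h = v := by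
    rw [hw, Matrix.vecMul_vecMul, Matrix.nonsing_inv_mul h hhdet, Matrix.vecMul_one]
  have hwg : Matrix.vecMul (fun j => toRX C (w j)) g = Pi.single i₀ 1 := by
    rw [← hhγ, ← Matrix.vecMul_vecMul, ← hv]
    congr 1
    have h1 := RingHom.map_vecMul (toRX C) h w
    funext j
    have h2 := h1 j
    rw [hwv] at h2
    exact h2.symm
  set e₀ : Matrix n n C := (Matrix.of c₀)⁻¹ with he₀
  have hce : (Matrix.of c₀) * e₀ = 1 := Matrix.mul_nonsing_inv _ hcdet
  set φ : C →+* RX C := (toRX C).comp (Polynomial.C : C →+* C[X]) with hφ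
  have hglφ : g * l = (Matrix.of c₀).map φ := by
    rw [← hhk, hhkc]
    rfl
  have hcφ : (Matrix.of c₀).map φ * e₀.map φ = 1 := by
    have h1 := congrArg (fun M : Matrix n n C => M.map φ) hce
    rw [Matrix.map_mul] at h1
    rw [h1]
    exact Matrix.map_one φ (map_zero φ) (map_one φ)
  have hwφ : (fun j => toRX C (w j)) = Matrix.vecMul (Pi.single i₀ 1) (l * e₀.map φ) := by
    rw [← hwg, Matrix.vecMul_vecMul, ← mul_assoc, hglφ, hcφ, Matrix.vecMul_one]
  have hwS : ∀ j, toRX C (w j) ∈ Sg C 0 0 := by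
    intro j
    have h1 := congrFun hwφ j
    rw [h1, Matrix.single_one_vecMul, Matrix.row_apply, Matrix.mul_apply]
    exact S0sum _ (fun t => S0mul _ (hlS i₀ t) _ (pconst _)) _
  choose u hu using fun j => pfin (w j) (hwS j)
  refine ⟨u, h⁻¹, ?_, ?_⟩
  · rw [Matrix.isUnit_nonsing_inv_det_iff]
    exact hhdet
  · rw [← hw]
    funext j
    exact hu j

end Pool.Agent.Helper8.FU
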